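import Mathlib
import Pool.Agent.KS6_35.EL.Codes

/-!
# Equations in one variable over a one-relator group: not elementary

Let `G = ⟨a, t, s | (t a t⁻¹) a (t a t⁻¹)⁻¹ = a²⟩`, the free product of the Baumslag–Gersten group
and the infinite cyclic group, which is a one-relator group. For every Kalmár elementary set `S` of
natural numbers there is a word `w(x, p)` such that `k ∈ S` if and only if the single one-variable
equation `w(x, a^k) = 1` has a solution in `G`. By diagonalization the set of all solvable
one-variable equations over `G` is not elementary.

By the file `OneVariableSequences.lean` in this folder a Diophantine problem with an upper bound `2 ^ n`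
for the unknowns is a one-variable equation with the parameter `aⁿ`. For the parameter `a^k` there is a
word for `a ^ T(k)` where `T` is an exponential of fixed height. So it is sufficient to show that
an elementary set has a Diophantine definition in which the unknowns are bounded by an iterated
exponential of fixed height. This is done by a proof of the theorem of Davis, Putnam, Robinson and
Matiyasevich with bounds for all witnesses.
-/

set_option autoImplicit false

namespace Pool.Agent.KS6_35.Old.OneRelNotElementary

open Pool.Agent.KS6_35.OR.Eqs Pool.Agent.KS6_35.EL

theorem result :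
    -- every elementary set is given by single equations in one variable
    (∀ f : (Fin 1 → ℕ) → ℕ, Elementary f → ∃ w : Word 2, ∀ k : ℕ,
      f ![k] = 0 ↔ ∃ x : G, value ![x, a ^ k] w = 1) ∧
    -- so the problem to decide the solvability of single equations in one variable is not elementary
    ¬ ∃ f : (Fin 1 → ℕ) → ℕ, Elementary f ∧ ∀ w : Word 1,
      f ![Encodable.encode w] = 0 ↔ ∃ x : G, value ![x] w = 1 := by
  constructor
  · intro f hf
    refine BD.oneVar (S := fun k => f ![k] = 0) ?_
    exact (BD.eq hf.bf (BF.const 0)).ext fun v => by
      rw [Set.mem_ofPred_eq, Set.mem_ofPred_eq]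
      have h : v = ![v 0] := by
        funext i
        fin_cases i
        rfl
      constructor
      · intro hv
        rw [h] at hv
        exact hv
      · intro hv
        rw [h]
        exact hv
  · rintro ⟨f, hf, hfw⟩
    have hd : BD {v : Fin 1 → ℕ | 0 < f ![isubc (v 0) (v 0) (v 0)]} := by
      refine BD.lt (BF.const 0) ?_
      have h1 : BF fun v : Fin 1 → ℕ => isubc (v 0) (v 0) (v 0) :=
        BF.isubc (BF.proj 0) (BF.proj 0) (BF.proj 0)
      refine (BF.subst (δ := Fin 1) hf.bf (g := fun _ v => isubc (v 0) (v 0) (v 0))
        (fun _ => h1)).congr fun v => ?_
      congr 1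
      funext i
      fin_cases i
      rfl
    obtain ⟨w, hw⟩ := BD.oneVar (S := fun k => 0 < f ![isubc k k k]) hd
    have h1 := hw (Encodable.encode w)
    have h2 := hfw (isub (Encodable.encode w) w)
    rw [← isubc_self] at h2
    have h3 : (∃ x : G, value ![x] (isub (Encodable.encode w) w) = 1) ↔
        ∃ x : G, value ![x, a ^ Encodable.encode w] w = 1 := by
      refine exists_congr fun x => ?_
      rw [value_isub, inv_eq_one]
    rw [h3, ← h1] at h2
    omega

end Pool.Agent.KS6_35.Old.OneRelNotElementary
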