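import Mathlib
import Pool.Agent.KS6_35.OR.Words

/-!
# Bounded Diophantine problems as equations in one variable over a one-relator group

Let `G = ⟨a, t, s | (t a t⁻¹) a (t a t⁻¹)⁻¹ = a²⟩`, the free product of the Baumslag–Gersten group
and the infinite cyclic group, which is a one-relator group. For every polynomial `P` with integer
coefficients there is a word `w(x, y, p)` such that for all natural numbers `n` and `k` the
one-variable equation `w(x, aⁿ, a^k) = 1` has a solution `x` in `G` if and only if
`P(k, i₁, …, i_m) = 0` has a solution in natural numbers with `k + i₁ + ⋯ + i_m < 2ⁿ`. So it is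
undecidable whether in a given sequence `w(x, aⁿ) = 1`, `n = 0, 1, 2, …`, of one-variable equations
over `G` some equation has a solution.

For the proof see the file `TwoVariables.lean` in this folder: two integers are read from the one
element `x = aᵘ t aʲ`.
-/

set_option autoImplicit false

namespace Pool.Agent.KS6_35.Old.OneRelOneVariableSequences

open MvPolynomial Pool.Agent.KS6_35.OR.Eqs

theorem result :
    -- one word for one polynomial and all bounds
    (∀ (m : ℕ) (P : MvPolynomial (Fin (m + 1)) ℤ), ∃ w : Word 3, ∀ n k : ℕ,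
      (∃ x : G, value ![x, a ^ n, a ^ k] w = 1) ↔
        ∃ i : Fin (m + 1) → ℕ, i 0 = k ∧ ∑ l, i l < 2 ^ n ∧ eval (fun l => (i l : ℤ)) P = 0) ∧
    -- so sequences of equations in one variable are undecidable
    ¬ ComputablePred (fun w : Word 2 => ∃ n : ℕ, ∃ x : G, value ![x, a ^ n] w = 1) := by
  refine ⟨fun m P => ?_, fun h => not_computable_halt ?_⟩
  · obtain ⟨w, hw⟩ := key m P
    exact ⟨w, fun n k => (hw k).1 n⟩
  · obtain ⟨m, P, hP⟩ := Pool.Agent.KS6_35.OR.dprm_fin Halt rePred_halt
    obtain ⟨w, hw⟩ := key m P
    refine ComputablePred.computable_of_manyOneReducible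
      ⟨fun k => subst k w, computable_subst w, fun k => ?_⟩ h
    simp only [value_subst]
    rw [hP]
    constructor
    · rintro ⟨i, h1, h2⟩
      exact ⟨∑ l, i l, ((hw k).1 _).2 ⟨i, h1, Nat.lt_two_pow_self, h2⟩⟩
    · rintro ⟨n, h⟩
      obtain ⟨i, h1, -, h2⟩ := ((hw k).1 n).1 h
      exact ⟨i, h1, h2⟩

end Pool.Agent.KS6_35.Old.OneRelOneVariableSequences
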