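import Mathlib
import Pool.Agent.KS6_35.OR.Words

/-!
# Single equations in two variables over a one-relator group

Let `G = ⟨a, t, s | (t a t⁻¹) a (t a t⁻¹)⁻¹ = a²⟩`, the free product of the Baumslag–Gersten group
and the infinite cyclic group, which is a one-relator group. For every recursively enumerable set
`S` of natural numbers there is a word `w(x, y, p)` such that `k ∈ S` if and only if the single
equation `w(x, y, a^k) = 1` in the two variables `x`, `y` has a solution in `G`. So single equations
in two variables over `G` are undecidable.

Let `b = t a t⁻¹`. The proof reads two integers from one element `x = aᵘ t aʲ` of the group, namely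
`aᵘ = b x a⁻¹ x⁻¹`, and a third one, `n`, from `y = aⁿ`, and expresses sums, products with powers of
two, the order and divisibility by powers of two. Three integers are enough to represent a
recursively enumerable set in this way: for `D = 2ⁿ⁺ᶜ` and `Z = 2 ^ D` the number
`∑ᵢ (1 + 2 P(i)²) Z ^ pos(i)`, with `pos(i) = ∑ i_l (D ^ (m + 1) + D ^ l)`, is a rational function of
powers of two, its digits to the base `Z` are the numbers `1 + 2 P(i)²`, and that the digit at the
position `J` is `1` is expressed with the number formed by the digits below. A system of equations is
made into one equation with the letter `s`.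
-/

set_option autoImplicit false

namespace Pool.Agent.KS6_35.Old.OneRelTwoVariables

open Pool.Agent.KS6_35.OR.Eqs

theorem result :
    -- every recursively enumerable set is given by single equations in two variables
    (∀ S : ℕ → Prop, REPred S → ∃ w : Word 3, ∀ k : ℕ,
      S k ↔ ∃ x y : G, value ![x, y, a ^ k] w = 1) ∧
    -- so single equations in two variables are undecidable
    ¬ ComputablePred (fun w : Word 2 => ∃ x y : G, value ![x, y] w = 1) := by
  have key' : ∀ S : ℕ → Prop, REPred S → ∃ w : Word 3, ∀ k : ℕ,
      S k ↔ ∃ x y : G, value ![x, y, a ^ k] w = 1 := by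
    intro S hS
    obtain ⟨m, P, hP⟩ := Pool.Agent.KS6_35.OR.dprm_fin S hS
    obtain ⟨w, hw⟩ := key m P
    exact ⟨w, fun k => by rw [hP, ← (hw k).2]⟩
  refine ⟨key', fun h => not_computable_halt ?_⟩
  obtain ⟨w, hw⟩ := key' Halt rePred_halt
  refine ComputablePred.computable_of_manyOneReducible
    ⟨fun k => subst k w, computable_subst w, fun k => ?_⟩ h
  rw [hw]
  simp only [value_subst]

end Pool.Agent.KS6_35.Old.OneRelTwoVariables
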